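import Pool.Agent.H107.FD.Repunit

/-!
# Complementary divisors of repunits of prime length

Author: helper107.

Let `R = 1 + B + ⋯ + B ^ (p - 1) = a b` be a factorization of the repunit of prime length `p` to a base `B` (the
decimal case is the one of the problem; a repunit whose length is not a prime is composite). We prove that
`(B - 1) s ^ 2 a` and `B r ^ 2 b` are not close to each other: with `A = B ^ ((p + 1) / 2)` and the least positive
residue `c₀` of `B r ^ 2 + (B - 1) s ^ 2 - 2 (B | p) B r s` modulo `2 p`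

  `((B - 1) s ^ 2 a - B r ^ 2 b) ^ 2 ≥ 4 r s c₀ A + c₀ ^ 2 + 4 (r s) ^ 2 B`

for all `r, s ≥ 1` with `r s B < A`, where `(B | p)` is the Legendre symbol. In the decimal case and for `r = s = 1` the
number `c₀` is `2 p - 1` if `10` is a square modulo `p`, and `39` if it is not a square and `p > 19`.

Proof. `B (B - 1) R = A ^ 2 - B`. So `S = (B - 1) s ^ 2 a + B r ^ 2 b` and `D = (B - 1) s ^ 2 a - B r ^ 2 b` satisfy
`S ^ 2 = D ^ 2 + (2 r s A) ^ 2 - 4 (r s) ^ 2 B`, and hence `S ≥ 2 r s A`. All divisors of `R` are `≡ 1` modulo `2 p`, and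
`A ≡ (B | p) B` modulo `p` by Euler's criterion; so `S - 2 r s A ≡ c₀` modulo `2 p`.
-/

set_option autoImplicit false

open Finset

namespace Pool.Agent.Results.MP_adea1b_nt.ComplementaryDivisors

/-- **Complementary divisors of repunits of prime length.** -/
theorem result :
    -- (1) arbitrary bases
    (∀ (B p : ℕ) [Fact p.Prime], p ≠ 2 → 2 ≤ B → ¬ IsSquare B → ¬ p ∣ B - 1 →
      ∀ a b : ℕ, a * b = ∑ i ∈ range p, B ^ i → ∀ r s : ℕ, 0 < r → 0 < s → r * s * B < B ^ ((p + 1) / 2) →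
      ∀ c₀ : ℤ, 1 ≤ c₀ → c₀ ≤ 2 * p →
        (2 * p : ℤ) ∣ B * r ^ 2 + (B - 1) * s ^ 2 - 2 * legendreSym p B * B * (r * s) - c₀ →
        4 * (r * s : ℤ) * c₀ * (B : ℤ) ^ ((p + 1) / 2) + c₀ ^ 2 + 4 * (r * s : ℤ) ^ 2 * B ≤
          (((B : ℤ) - 1) * s ^ 2 * a - B * r ^ 2 * b) ^ 2) ∧
    -- (2) decimal repunits, `10` a square modulo `p`
    (∀ p : ℕ, p.Prime → 5 < p → IsSquare (10 : ZMod p) → ∀ a b : ℕ, a * b = ∑ i ∈ range p, 10 ^ i →
      4 * (2 * (p : ℤ) - 1) * 10 ^ ((p + 1) / 2) + (2 * (p : ℤ) - 1) ^ 2 + 40 ≤ (9 * (a : ℤ) - 10 * b) ^ 2) ∧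
    -- (3) decimal repunits, `10` not a square modulo `p`
    (∀ p : ℕ, p.Prime → 19 < p → ¬ IsSquare (10 : ZMod p) → ∀ a b : ℕ, a * b = ∑ i ∈ range p, 10 ^ i →
      156 * (10 : ℤ) ^ ((p + 1) / 2) + 1561 ≤ (9 * (a : ℤ) - 10 * b) ^ 2) := by
  have h1 : ∀ (B p : ℕ) [Fact p.Prime], p ≠ 2 → 2 ≤ B → ¬ IsSquare B → ¬ p ∣ B - 1 →
      ∀ a b : ℕ, a * b = ∑ i ∈ range p, B ^ i → ∀ r s : ℕ, 0 < r → 0 < s → r * s * B < B ^ ((p + 1) / 2) →
      ∀ c₀ : ℤ, 1 ≤ c₀ → c₀ ≤ 2 * p →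
        (2 * p : ℤ) ∣ B * r ^ 2 + (B - 1) * s ^ 2 - 2 * legendreSym p B * B * (r * s) - c₀ →
        4 * (r * s : ℤ) * c₀ * (B : ℤ) ^ ((p + 1) / 2) + c₀ ^ 2 + 4 * (r * s : ℤ) ^ 2 * B ≤
          (((B : ℤ) - 1) * s ^ 2 * a - B * r ^ 2 * b) ^ 2 :=
    fun B p _ hp2 hB hsq hpB a b hab r s hr hs hrs c₀ hc1 hc2 hc =>
      Pool.Agent.H107.FD.repunit_gap hp2 hB hsq hpB hab hr hs hrs hc1 hc2 hc
  have hsq10 : ¬ IsSquare 10 := by
    rintro ⟨x, hx⟩
    have : x < 4 := by nlinarith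
    interval_cases x <;> omega
  have hlt : ∀ p : ℕ, 5 < p → 1 * 1 * 10 < 10 ^ ((p + 1) / 2) := by
    intro p hp
    calc 1 * 1 * 10 < 10 ^ 2 := by norm_num
      _ ≤ 10 ^ ((p + 1) / 2) := Nat.pow_le_pow_right (by norm_num) (by omega)
  have hp9 : ∀ p : ℕ, p.Prime → 5 < p → ¬ p ∣ 10 - 1 := by
    intro p hp h5 h
    have h2 : p ≤ 9 := Nat.le_of_dvd (by norm_num) h
    interval_cases p
    · omega
    · omega
    · omega
    · exact absurd hp (by norm_num)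
  have h10 : ∀ (p : ℕ) [Fact p.Prime], 5 < p → (((10 : ℕ) : ℤ) : ZMod p) ≠ 0 := by
    intro p hp h5 h
    have h2 : ((10 : ℕ) : ZMod p) = 0 := by exact_mod_cast h
    rw [ZMod.natCast_eq_zero_iff] at h2
    have h3 : p ≤ 10 := Nat.le_of_dvd (by norm_num) h2
    have h4 := hp.out
    interval_cases p
    · omega
    · omega
    · omega
    · omega
    · exact absurd h4 (by norm_num)
  refine ⟨h1, ?_, ?_⟩
  · intro p hp h5 hsq a b hab
    have : Fact p.Prime := ⟨hp⟩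
    have hl : legendreSym p ((10 : ℕ) : ℤ) = 1 := by
      rw [legendreSym.eq_one_iff p (h10 p h5)]
      simpa using hsq
    have h := h1 10 p (by omega) (by norm_num) hsq10 (hp9 p hp h5) a b hab 1 1 one_pos one_pos (hlt p h5)
      (2 * p - 1) (by omega) (by omega) ⟨-1, by rw [hl]; push_cast; ring⟩
    push_cast at h
    linarith
  · intro p hp h19 hsq a b hab
    have : Fact p.Prime := ⟨hp⟩
    have h5 : 5 < p := by omega
    have hl : legendreSym p ((10 : ℕ) : ℤ) = -1 := by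
      rw [legendreSym.eq_neg_one_iff]
      simpa using hsq
    have h := h1 10 p (by omega) (by norm_num) hsq10 (hp9 p hp h5) a b hab 1 1 one_pos one_pos (hlt p h5)
      39 (by norm_num) (by omega) ⟨0, by rw [hl]; push_cast; ring⟩
    push_cast at h
    linarith

end Pool.Agent.Results.MP_adea1b_nt.ComplementaryDivisors
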