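import Pool.Agent.H539.FF3

/-!
# Repunits over a finite field: the lengths of the irreducible repunits in the bases `c t ^ n + w`

Let `F` be a field with `q` elements.  The analogue in `F[t]` of the question on the repunits
`1 + 10 + ... + 10 ^ (m - 1)` is the question for which lengths `m` the repunit
`1 + f + ... + f ^ (m - 1)` in a base `f` is irreducible.  We solve it for the bases
`f = c t ^ n + w`, where all prime factors of `n` divide `q - 1` (if `q` is odd, this contains all
quadratic bases up to a translation of `t`): for `m ≥ 3` the repunit is irreducible if and only if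
`m` is a prime, `q` is a primitive root modulo `m` and for no prime factor `l` of `n` the number
`(1 + w + ... + w ^ (m - 1)) / c ^ (m - 1)` is an `l`-th power in `F`.  The last condition depends on
the residue class of `m` modulo `(q - 1)` times the characteristic only.  So the question for these
bases is Artin's question on primitive roots, restricted to certain residue classes of primes,
and it has a negative answer for many bases which are not perfect powers: for instance if `q` is
odd, `f` is nonconstant and `f + 1` is a constant times a square, then no repunit of length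
`m ≥ 3` in the base `f` is irreducible.

Proof. If `m` is a prime and `q` a primitive root modulo `m`, then the cyclotomic polynomial is
irreducible over `F`, and the repunit is irreducible if and only if `c t ^ n + w - ζ` is
irreducible over `F(ζ)`, `ζ` a primitive `m`-th root of unity.  As `-1` is a square in `F(ζ)`, this
holds if and only if `(ζ - w) / c` is not an `l`-th power in `F(ζ)` for the prime factors `l` of `n`,
and by Hilbert 90 this may be read off from its norm
`(1 + w + ... + w ^ (m - 1)) / c ^ (m - 1)`.
-/

open Polynomial

namespace Pool.Agent.Results.MP_adea1b_nt.FiniteFieldBases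

/-- The repunit of length `m` in the base `f`. -/
noncomputable def repunit {F : Type*} [Field F] (f : F[X]) (m : ℕ) : F[X] :=
  ∑ i ∈ Finset.range m, f ^ i

/-- `m` is a prime and `q` is a primitive root modulo `m` (its order modulo `m` is `m - 1`). -/
def PrimitiveRootMod (q m : ℕ) : Prop := m.Prime ∧ orderOf ((q : ℕ) : ZMod m) = m - 1

/-- **The lengths of the irreducible repunits in the bases `c t ^ n + w` over a finite field.** -/
theorem result {F : Type*} [Field F] [Fintype F] :
    -- the criterion
    (∀ (c w : F) (n m : ℕ), c ≠ 0 → 1 ≤ n →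
      (∀ l : ℕ, l.Prime → l ∣ n → l ∣ Fintype.card F - 1) → 3 ≤ m →
      (Irreducible (repunit (C c * X ^ n + C w) m) ↔
        PrimitiveRootMod (Fintype.card F) m ∧
          ∀ l : ℕ, l.Prime → l ∣ n →
            ∀ y : F, y ^ l * c ^ (m - 1) ≠ ∑ i ∈ Finset.range m, w ^ i)) ∧
    -- all quadratic bases in odd characteristic, in terms of the critical value
    (∀ (f : F[X]) (s : F) (m : ℕ), (2 : F) ≠ 0 → f.natDegree = 2 → f.derivative.eval s = 0 →
      3 ≤ m →
      (Irreducible (repunit f m) ↔
        PrimitiveRootMod (Fintype.card F) m ∧ ¬ IsSquare (∑ i ∈ Finset.range m, f.eval s ^ i))) ∧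
    -- among the primes modulo which `q` is a primitive root the lengths are residue classes
    (∀ (c w : F) (n m m' : ℕ), c ≠ 0 → 1 ≤ n →
      (∀ l : ℕ, l.Prime → l ∣ n → l ∣ Fintype.card F - 1) → 3 ≤ m → 3 ≤ m' →
      PrimitiveRootMod (Fintype.card F) m → PrimitiveRootMod (Fintype.card F) m' →
      m ≡ m' [MOD ringChar F * (Fintype.card F - 1)] →
      (Irreducible (repunit (C c * X ^ n + C w) m) ↔
        Irreducible (repunit (C c * X ^ n + C w) m'))) ∧
    -- bases without irreducible repunits of length at least three
    (∀ (h : F[X]) (l : ℕ), 1 ≤ h.natDegree → l.Prime → l ∣ Fintype.card F - 1 →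
      ∀ m : ℕ, 3 ≤ m → ¬ Irreducible (repunit (h ^ l - 1) m)) ∧
    (∀ (h : F[X]) (c w : F), (2 : F) ≠ 0 → 1 ≤ h.natDegree → c ≠ 0 →
      w = -1 ∨ w ^ 2 - w + 1 = 0 →
      ∀ m : ℕ, 3 ≤ m → ¬ Irreducible (repunit (C c * h ^ 2 + C w) m)) := by
  refine ⟨?_, ?_, ?_, ?_, ?_⟩
  · intro c w n m hc hn hdiv h3
    rw [PrimitiveRootMod, and_assoc]
    exact H539.FF.criterion hc w hn hdiv h3
  · intro f s m h2 hf hs h3
    rw [PrimitiveRootMod, and_assoc]
    exact H539.FF.criterion_quadratic h2 hf hs h3
  · intro c w n m m' hc hn hdiv h3 h3' hm hm' hmod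
    exact H539.FF.periodic hc w hn hdiv h3 h3' hm.1 hm'.1 hm.2 hm'.2 hmod
  · intro h l hh hl hd m h3
    exact H539.FF.none_of_pow_sub_one hl hd hh h3
  · intro h c w h2 hh hc hw m h3
    exact H539.FF.none_of_square h2 hc hw hh h3

end Pool.Agent.Results.MP_adea1b_nt.FiniteFieldBases
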