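import Mathlib
import Pool.Agent.H556.FX.NearSFin
import Pool.Agent.H556.FX.Runs

/-!
# Divisors of the decimal repunits `R_p` of prime length

`R_n = 11…1` (`n` digits) can be a prime only for prime `n`. For all large primes `p` we restrict the
proper divisors of `R_p`. Let `ε > 0` and let `S` be a finite set of primes (e.g. `2` and `5`).

(1) Leading digits. Let `α` be a real algebraic number. No divisor `a = R_p ^ t`, `ε ≤ t ≤ 1 - ε`, of
`R_p` lies within the distance `R_p ^ (t ^ 2 - ε)` of a number `α u`, where `u` is a rational number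
composed of the primes of `S` (of height at most `R_p ^ K`), or such a number times `c / d` with integers
`|c|, |d| ≤ R_p ^ η`. For `u = 10 ^ k`: the decimal expansions of `a` and of `α` have less than
`(t (1 - t) + ε) p` leading digits in common; for rational `α` and `c / d`: the expansion of `a` does not
begin (after at most `η p` digits) with so long a block of equal digits, or a periodic block with
bounded period.

(2) Last digits. If `u`, `v` are coprime integers composed of the primes of `S`, of absolute value at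
most `R_p ^ K`, and `c`, `d` are nonzero integers of absolute value at most `R_p ^ η`, then the part of
`c u a + d v` which is composed of primes outside of `S` is greater than
`max (|u| a, |v|) R_p ^ (-t (1 - t) - ε)`. For `u = v = 1`: if `10 ^ k` divides `c a + d` then
`k < (t (1 - t) + ε) p`, so the expansion of `a` does not end with so long a block of equal digits, or a
periodic block with bounded period.

(3) Digit changes. Let `δ > 0` and let `r` be a natural number. For all large primes `p`, every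
multiple `m` with `0 < m < R_p` of a divisor `d ≥ R_p ^ δ` of `R_p` has more than `r` digit changes, i.e.
its decimal expansion consists of more than `r` blocks of equal digits (`R_p` itself is one block).

Proof of (1) and (2). Let `T = -10 ^ p`, `R_p = a a'`, `z = a / u`, `z' = 9 a' u / 10 ^ p`, so that
`T z z' = T + 1`. If `T` and `z` satisfy no polynomial relation with fixed coefficients, the subspace
theorem is applied to the products `T ^ ω z ^ i` (`0 ≤ i ≤ B`), `T ^ ω z' ^ l` (`1 ≤ l ≤ A`),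
`0 ≤ ω ≤ M`, with the basis of the `T ^ ω z' ^ max (k - B, 0) (z - α) ^ k`, `0 ≤ k ≤ A + B`, at the places
where `z` is close to `α`. If there is a relation then `z` has a Puiseux expansion in `T`, the subspace
theorem shows that a bounded multiple of `a` is a short sum of `S`-units, and this is impossible by the
theorem on the greatest common divisors of `R_p` and such sums, of which (3) is also a consequence.
-/

set_option autoImplicit false

namespace Pool.Agent.Results.MP_adea1b_nt.RepunitDivisors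

/-- the decimal repunit of length `n` -/
def R (n : ℕ) : ℕ := ∑ i ∈ Finset.range n, 10 ^ i

/-- `u = (c / d) w`, where `c`, `d` are integers of absolute value at most `C`, and `w` is a nonzero
rational number with numerator and denominator at most `H` (in absolute value), both composed of the
primes of `S`. -/
def AlmostUnit (S : Finset ℕ) (C H : ℝ) (u : ℚ) : Prop :=
  ∃ (c d : ℤ) (w : ℚ), d ≠ 0 ∧ |(c : ℝ)| ≤ C ∧ |(d : ℝ)| ≤ C ∧ w ≠ 0 ∧
    (∀ l : ℕ, l.Prime → (l ∣ w.num.natAbs ∨ l ∣ w.den) → l ∈ S) ∧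
    |(w.num : ℝ)| ≤ H ∧ (w.den : ℝ) ≤ H ∧ u = (c : ℚ) / d * w

/-- the `i`-th decimal digit of `m` (from the right, `i = 0, 1, …`) -/
def digit (m i : ℕ) : ℕ := m / 10 ^ i % 10

/-- the number of `i < N` for which the `i`-th and the `(i + 1)`-th digit of `m` are different -/
def digitChanges (m N : ℕ) : ℕ :=
  ((Finset.range N).filter fun i => digit m i ≠ digit m (i + 1)).card

lemma R_mul (p : ℕ) : ((R p : ℕ) : ℤ) * (10 - 1) = 10 ^ p - 1 ^ p := by
  have h := geom_sum_mul (10 : ℤ) p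
  rw [one_pow, ← h, R]
  push_cast
  rfl

theorem result :
    (∀ (S : Finset ℕ) (α : ℝ), IsAlgebraic ℚ α → ∀ (K ε : ℝ), 0 < ε →
      ∃ η : ℝ, 0 < η ∧ ∃ p₀ : ℕ, ∀ p ≥ p₀, p.Prime → ∀ u : ℚ,
      AlmostUnit S ((R p : ℝ) ^ η) ((R p : ℝ) ^ K) u →
      ∀ a : ℕ, a ∣ R p → ∀ t : ℝ, ε ≤ t → t ≤ 1 - ε → (a : ℝ) = (R p : ℝ) ^ t →
      (R p : ℝ) ^ (t ^ 2 - ε) < |(a : ℝ) - α * (u : ℝ)|) ∧
    (∀ (S : Finset ℕ) (K ε : ℝ), 0 < ε → ∃ η : ℝ, 0 < η ∧ ∃ p₀ : ℕ, ∀ p ≥ p₀, p.Prime →
      ∀ a : ℕ, a ∣ R p → ∀ t : ℝ, ε ≤ t → t ≤ 1 - ε → (a : ℝ) = (R p : ℝ) ^ t →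
      ∀ u v s : ℤ, u ≠ 0 → v ≠ 0 → s ≠ 0 → (∀ l : ℕ, l.Prime → (l : ℤ) ∣ u * v * s → l ∈ S) →
      IsCoprime u v → |(u : ℝ)| ≤ (R p : ℝ) ^ K → |(v : ℝ)| ≤ (R p : ℝ) ^ K →
      ∀ c d k : ℤ, c ≠ 0 → d ≠ 0 → |(c : ℝ)| ≤ (R p : ℝ) ^ η → |(d : ℝ)| ≤ (R p : ℝ) ^ η →
      c * u * a + d * v = k * s →
      max (|(u : ℝ)| * a) |(v : ℝ)| * (R p : ℝ) ^ (-(t * (1 - t)) - ε) < |(k : ℝ)|) ∧
    ∀ (r : ℕ) (δ : ℝ), 0 < δ → ∃ p₀ : ℕ, ∀ p ≥ p₀, p.Prime → ∀ d m : ℕ, d ∣ R p →
      (R p : ℝ) ^ δ ≤ d → d ∣ m → 0 < m → m < R p → r < digitChanges m p := by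
  refine ⟨?_, ?_, ?_⟩
  · intro S α hα K ε hε
    obtain ⟨η, hη, p₀, h⟩ :=
      Pool.Agent.H556.FX.near' Pool.Agent.H556.FX.adm_ten S α hα K ε hε
    refine ⟨η, hη, p₀, fun p hp hpp u hu a ha t ht1 ht2 hat => ?_⟩
    obtain ⟨c, d, w, hd0, hc, hd, hw0, hwS, hwn, hwd, rfl⟩ := hu
    have key := h p hp hpp (R p) (R_mul p) c d w hd0 hc hd hw0 hwS hwn hwd a ha t ht1 ht2 hat
    push_cast
    exact key
  · intro S K ε hε
    obtain ⟨η, hη, p₀, h⟩ :=
      Pool.Agent.H556.FX.sfree' Pool.Agent.H556.FX.adm_ten S K ε hε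
    refine ⟨η, hη, p₀, fun p hp hpp a ha t ht1 ht2 hat u v s hu0 hv0 hs0 hS huv hu hv c d k hc0
      hd0 hc hd hrel => ?_⟩
    exact h p hp hpp (R p) (R_mul p) a ha t ht1 ht2 hat c d u v k s hc0 hd0 hc hd hu0 hv0 hs0 hS
      huv hu hv hrel
  · intro r δ hδ
    obtain ⟨p₀, h⟩ := Pool.Agent.H556.FX.changes r δ hδ
    refine ⟨p₀, fun p hp hpp d m hd1 hd2 hdm hm0 hmM => ?_⟩
    exact h p hp hpp (R p) (R_mul p) d m hd1 hd2 hdm hm0 hmM

end Pool.Agent.Results.MP_adea1b_nt.RepunitDivisors
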